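import Pool.Agent.Q235.Wqo.TypeA
import Mathlib.Combinatorics.Pigeonhole
import Mathlib.Data.Finset.Max
import Mathlib.Data.Finset.Prod
import Mathlib.Tactic.NormNum
import Mathlib.Tactic.IntervalCases
import Mathlib.Data.Fin.VecNotation

/-!
# Configurations with no six points in general position are of type A or B
-/

namespace Pool.Agent.Q235.Wqo

/-- No three points of `S` lie on a line. -/
def Gen (S : Finset (ℝ × ℝ)) : Prop :=
  ∀ p ∈ S, ∀ q ∈ S, ∀ r ∈ S, p ≠ q → p ≠ r → q ≠ r → orient p q r ≠ 0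

theorem fin6_aux : ∀ i j : Fin 6, i < j →
    (∃ k, k < i) ∨ (∃ k, i < k ∧ k < j) ∨ (∃ k, j < k) := by decide

theorem gen_of_fin6 (P : Fin 6 → ℝ × ℝ)
    (h : ∀ i j k, i < j → j < k → det3 (P i) (P j) (P k) ≠ 0) :
    Gen (Finset.univ.image P) ∧ (Finset.univ.image P).card = 6 := by
  classical
  have hinj : Function.Injective P := by
    have hlt : ∀ i j : Fin 6, i < j → P i ≠ P j := by
      intro i j hij he
      have : (∃ k, k < i) ∨ (∃ k, i < k ∧ k < j) ∨ (∃ k, j < k) := fin6_aux i j hij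
      rcases this with ⟨k, hk⟩ | ⟨k, hk1, hk2⟩ | ⟨k, hk⟩
      · exact h k i j hk hij (by rw [he, det3_self'])
      · exact h i k j hk1 hk2 (by rw [he, det3_self''])
      · exact h i j k hij hk (by rw [he, det3_self])
    intro i j hij
    rcases lt_trichotomy i j with h1 | h1 | h1
    · exact absurd hij (hlt i j h1)
    · exact h1
    · exact absurd hij.symm (hlt j i h1)
  refine ⟨?_, ?_⟩
  · intro p hp q hq r hr hpq hpr hqr
    obtain ⟨i, -, rfl⟩ := Finset.mem_image.1 hp
    obtain ⟨j, -, rfl⟩ := Finset.mem_image.1 hq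
    obtain ⟨k, -, rfl⟩ := Finset.mem_image.1 hr
    have hij : i ≠ j := fun h => hpq (by rw [h])
    have hik : i ≠ k := fun h => hpr (by rw [h])
    have hjk : j ≠ k := fun h => hqr (by rw [h])
    rw [Ne, orient_eq_zero]
    intro h0
    rcases lt_or_gt_of_ne hij with h1 | h1
    · rcases lt_or_gt_of_ne hjk with h2 | h2
      · exact h i j k h1 h2 h0
      · rcases lt_or_gt_of_ne hik with h3 | h3
        · refine h i k j h3 h2 ?_
          have : det3 (P i) (P k) (P j) = - det3 (P i) (P j) (P k) := by unfold det3; ring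
          rw [this, h0, neg_zero]
        · refine h k i j h3 h1 ?_
          have : det3 (P k) (P i) (P j) = det3 (P i) (P j) (P k) := by unfold det3; ring
          rw [this, h0]
    · rcases lt_or_gt_of_ne hik with h2 | h2
      · refine h j i k h1 h2 ?_
        have : det3 (P j) (P i) (P k) = - det3 (P i) (P j) (P k) := by unfold det3; ring
        rw [this, h0, neg_zero]
      · rcases lt_or_gt_of_ne hjk with h3 | h3
        · refine h j k i h3 h2 ?_
          have : det3 (P j) (P k) (P i) = det3 (P i) (P j) (P k) := by unfold det3; ring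
          rw [this, h0]
        · refine h k j i h3 h1 ?_
          have : det3 (P k) (P j) (P i) = - det3 (P i) (P j) (P k) := by unfold det3; ring
          rw [this, h0, neg_zero]
  · rw [Finset.card_image_of_injective _ hinj]
    simp

/-- Six points: `e, f` off two lines, `p₁, p₂` on the first, `q₁, q₂` on the second. -/
theorem six (a b c d e f p₁ p₂ q₁ q₂ : ℝ × ℝ)
    (he1 : det3 a b e ≠ 0) (hf1 : det3 a b f ≠ 0) (he2 : det3 c d e ≠ 0) (hf2 : det3 c d f ≠ 0)
    (hp1 : det3 a b p₁ = 0) (hp2 : det3 a b p₂ = 0) (hp1' : det3 c d p₁ ≠ 0)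
    (hp2' : det3 c d p₂ ≠ 0)
    (hq1 : det3 c d q₁ = 0) (hq2 : det3 c d q₂ = 0) (hq1' : det3 a b q₁ ≠ 0)
    (hq2' : det3 a b q₂ ≠ 0) (hp : p₁ ≠ p₂) (hq : q₁ ≠ q₂)
    (h1 : det3 e f p₁ ≠ 0) (h2 : det3 e f p₂ ≠ 0) (h3 : det3 e f q₁ ≠ 0) (h4 : det3 e f q₂ ≠ 0)
    (h5 : det3 e p₁ q₁ ≠ 0) (h6 : det3 e p₁ q₂ ≠ 0) (h7 : det3 e p₂ q₁ ≠ 0)
    (h8 : det3 e p₂ q₂ ≠ 0)
    (h9 : det3 f p₁ q₁ ≠ 0) (h10 : det3 f p₁ q₂ ≠ 0) (h11 : det3 f p₂ q₁ ≠ 0)
    (h12 : det3 f p₂ q₂ ≠ 0) :
    ∀ i j k : Fin 6, i < j → j < k →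
      det3 (![e, f, p₁, p₂, q₁, q₂] i) (![e, f, p₁, p₂, q₁, q₂] j)
        (![e, f, p₁, p₂, q₁, q₂] k) ≠ 0 := by
  have hab : a ≠ b := by
    intro h
    apply he1
    rw [h, det3_self]
  have hcd : c ≠ d := by
    intro h
    apply he2
    rw [h, det3_self]
  have key : ∀ {a b x y z : ℝ × ℝ}, a ≠ b → det3 a b x = 0 → det3 a b y = 0 → x ≠ y →
      det3 a b z ≠ 0 → det3 x y z ≠ 0 := by
    intro a b x y z hab hx hy hxy hz h0
    have := line_det a b x y z hx hy
    rw [h0, zero_mul] at this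
    rcases mul_eq_zero.1 this.symm with h | h
    · exact hxy (eq_of_pos a b x y hx hy hab (by linarith))
    · exact hz h
  have k1 : det3 e p₁ p₂ ≠ 0 := by
    rw [← det3_rot]
    exact key hab hp1 hp2 hp he1
  have k2 : det3 f p₁ p₂ ≠ 0 := by
    rw [← det3_rot]
    exact key hab hp1 hp2 hp hf1
  have k3 : det3 e q₁ q₂ ≠ 0 := by
    rw [← det3_rot]
    exact key hcd hq1 hq2 hq he2
  have k4 : det3 f q₁ q₂ ≠ 0 := by
    rw [← det3_rot]
    exact key hcd hq1 hq2 hq hf2
  have k5 : det3 p₁ p₂ q₁ ≠ 0 := key hab hp1 hp2 hp hq1'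
  have k6 : det3 p₁ p₂ q₂ ≠ 0 := key hab hp1 hp2 hp hq2'
  have k7 : det3 p₁ q₁ q₂ ≠ 0 := by
    rw [← det3_rot]
    exact key hcd hq1 hq2 hq hp1'
  have k8 : det3 p₂ q₁ q₂ ≠ 0 := by
    rw [← det3_rot]
    exact key hcd hq1 hq2 hq hp2'
  intro i j k hij hjk
  fin_cases i <;> fin_cases j <;> fin_cases k <;>
    first
      | exact absurd hij (by decide)
      | exact absurd hjk (by decide)
      | assumption

/-- Among many points of `S` covered by lines through pairs of a 5-set, some line is rich. -/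
theorem rich (M S : Finset (ℝ × ℝ)) (hM : M.card ≤ 5) (hS : 120 < S.card)
    (h : ∀ x ∈ S, ∃ p ∈ M, ∃ q ∈ M, p ≠ q ∧ det3 p q x = 0) :
    ∃ p q : ℝ × ℝ, p ≠ q ∧ 7 ≤ (S.filter (fun x => det3 p q x = 0)).card := by
  classical
  choose! p hp q hq hpq hd using h
  have hmaps : ∀ x ∈ S, (p x, q x) ∈ M.offDiag := fun x hx =>
    Finset.mem_offDiag.2 ⟨hp x hx, hq x hx, hpq x hx⟩
  have hcard : M.offDiag.card * 6 < S.card := by
    rw [Finset.offDiag_card]
    have : M.card * M.card - M.card ≤ 20 := by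
      interval_cases M.card <;> simp
    omega
  obtain ⟨y, hy, hy2⟩ := Finset.exists_lt_card_fiber_of_mul_lt_card_of_maps_to hmaps hcard
  obtain ⟨-, -, hne⟩ := Finset.mem_offDiag.1 hy
  refine ⟨y.1, y.2, hne, ?_⟩
  refine le_trans hy2 (Finset.card_le_card ?_)
  intro x hx
  obtain ⟨hx1, hx2⟩ := Finset.mem_filter.1 hx
  refine Finset.mem_filter.2 ⟨hx1, ?_⟩
  rw [← hx2]
  exact hd x hx1

theorem classify (S : Finset (ℝ × ℝ)) (hS : ∀ T ⊆ S, Gen T → T.card < 6) :
    TypeA S ∨ ∃ k ≤ 120, TypeB k S := by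
  classical
  by_cases hsmall : S.card ≤ 120
  · right
    refine ⟨_, ?_, (0, 0), (1, 0), by simp, rfl⟩
    exact le_trans (Finset.card_le_card (Finset.filter_subset _ _)) hsmall
  push Not at hsmall
  -- a maximal subset in general position
  obtain ⟨M, hM, hMmax⟩ := Finset.exists_max_image (S.powerset.filter Gen) Finset.card
    ⟨∅, by
      refine Finset.mem_filter.2 ⟨Finset.empty_mem_powerset _, ?_⟩
      intro p hp
      simp at hp⟩
  obtain ⟨hMS, hMG⟩ := Finset.mem_filter.1 hM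
  rw [Finset.mem_powerset] at hMS
  have hM5 : M.card ≤ 5 := Nat.lt_succ_iff.1 (hS M hMS hMG)
  have hM2 : 2 ≤ M.card := by
    obtain ⟨x, hx, y, hy, hxy⟩ := Finset.one_lt_card.1 (show 1 < S.card by omega)
    have h1 := hMmax {x, y} (Finset.mem_filter.2 ⟨by
      rw [Finset.mem_powerset]
      intro z hz
      rcases Finset.mem_insert.1 hz with h | h
      · rw [h]; exact hx
      · rw [Finset.mem_singleton.1 h]; exact hy, by
      intro p hp q hq r hr hpq hpr hqr
      simp only [Finset.mem_insert, Finset.mem_singleton] at hp hq hr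
      rcases hp with rfl | rfl <;> rcases hq with rfl | rfl <;> rcases hr with rfl | rfl <;>
        first
          | exact absurd rfl hpq
          | exact absurd rfl hpr
          | exact absurd rfl hqr⟩)
    rwa [Finset.card_pair hxy] at h1
  have hcov : ∀ x ∈ S, ∃ p ∈ M, ∃ q ∈ M, p ≠ q ∧ det3 p q x = 0 := by
    intro x hx
    by_cases hxM : x ∈ M
    · obtain ⟨y, hy, hyx⟩ := Finset.exists_mem_ne (show 1 < M.card by omega) x
      exact ⟨x, hxM, y, hy, hyx.symm, det3_self'' _ _⟩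
    · by_contra hcon
      push Not at hcon
      have hG : Gen (insert x M) := by
        intro p hp q hq r hr hpq hpr hqr
        rw [Ne, orient_eq_zero]
        rcases Finset.mem_insert.1 hp with hp' | hp'
        · rcases Finset.mem_insert.1 hq with hq' | hq'
          · exact absurd (hp'.trans hq'.symm) hpq
          rcases Finset.mem_insert.1 hr with hr' | hr'
          · exact absurd (hp'.trans hr'.symm) hpr
          rw [← det3_rot, hp']
          exact hcon q hq' r hr' hqr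
        · rcases Finset.mem_insert.1 hq with hq' | hq'
          · rcases Finset.mem_insert.1 hr with hr' | hr'
            · exact absurd (hq'.trans hr'.symm) hqr
            rw [← det3_rot, ← det3_rot, hq']
            exact hcon r hr' p hp' hpr.symm
          · rcases Finset.mem_insert.1 hr with hr' | hr'
            · rw [hr']
              exact hcon p hp' q hq' hpq
            · have := hMG p hp' q hq' r hr' hpq hpr hqr
              rwa [Ne, orient_eq_zero] at this
      have h1 := hMmax (insert x M) (Finset.mem_filter.2 ⟨Finset.mem_powerset.2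
        (Finset.insert_subset hx hMS), hG⟩)
      rw [Finset.card_insert_of_notMem hxM] at h1
      omega
  obtain ⟨a, b, hab, hL1⟩ := rich M S hM5 hsmall hcov
  by_cases hB : (S.filter (fun x => det3 a b x ≠ 0)).card ≤ 120
  · right
    exact ⟨_, hB, a, b, hab, rfl⟩
  push Not at hB
  left
  obtain ⟨c, d, hcd, hL2⟩ := rich M (S.filter (fun x => det3 a b x ≠ 0)) hM5 hB
    (fun x hx => hcov x (Finset.mem_filter.1 hx).1)
  rw [Finset.filter_filter] at hL2
  -- points of the first line off the second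
  set P := S.filter (fun x => det3 a b x = 0 ∧ det3 c d x ≠ 0) with hPdef
  set Q := S.filter (fun x => det3 a b x ≠ 0 ∧ det3 c d x = 0) with hQdef
  have hQ : 7 ≤ Q.card := hL2
  obtain ⟨q₀, hq₀⟩ := Finset.card_pos.1 (show 0 < Q.card by omega)
  have hq₀' := Finset.mem_filter.1 hq₀
  have hP : 6 ≤ P.card := by
    have h1 : (S.filter (fun x => det3 a b x = 0)).card ≤
        P.card + (S.filter (fun x => det3 a b x = 0 ∧ det3 c d x = 0)).card := by
      refine le_trans (Finset.card_le_card ?_) (Finset.card_union_le _ _)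
      intro x hx
      obtain ⟨hx1, hx2⟩ := Finset.mem_filter.1 hx
      rw [Finset.mem_union]
      by_cases h : det3 c d x = 0
      · right; exact Finset.mem_filter.2 ⟨hx1, hx2, h⟩
      · left; exact Finset.mem_filter.2 ⟨hx1, hx2, h⟩
    have h2 : (S.filter (fun x => det3 a b x = 0 ∧ det3 c d x = 0)).card ≤ 1 := by
      rw [Finset.card_le_one]
      intro x hx y hy
      obtain ⟨-, hx1, hx2⟩ := Finset.mem_filter.1 hx
      obtain ⟨-, hy1, hy2⟩ := Finset.mem_filter.1 hy
      by_contra hxy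
      have e1 := line_det a b x y q₀ hx1 hy1
      have e2 := line_det c d x y q₀ hx2 hy2
      rw [hq₀'.2.2, mul_zero] at e2
      rcases mul_eq_zero.1 e2 with h | h
      · rw [h, zero_mul] at e1
        rcases mul_eq_zero.1 e1.symm with h | h
        · exact hxy (eq_of_pos a b x y hx1 hy1 hab (by linarith))
        · exact hq₀'.2.1 h
      · exact (sq_pos hcd).ne' h
    omega
  obtain ⟨p₀, hp₀⟩ := Finset.card_pos.1 (show 0 < P.card by omega)
  have hp₀' := Finset.mem_filter.1 hp₀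
  by_cases hE : (S.filter (fun x => det3 a b x ≠ 0 ∧ det3 c d x ≠ 0)).card ≤ 1
  · by_cases hne : ∃ e ∈ S, det3 a b e ≠ 0 ∧ det3 c d e ≠ 0
    · obtain ⟨e, he, he1, he2⟩ := hne
      refine ⟨a, b, c, d, e, he1, he2, fun x hx => ?_⟩
      by_contra hcon
      push Not at hcon
      exact hcon.1 (Finset.card_le_one.1 hE x (Finset.mem_filter.2 ⟨hx, hcon.2.1, hcon.2.2⟩) e
        (Finset.mem_filter.2 ⟨he, he1, he2⟩))
    · push Not at hne
      refine ⟨a, b, c, d, ((p₀.1 + q₀.1) / 2, (p₀.2 + q₀.2) / 2), ?_, ?_, fun x hx => ?_⟩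
      · have h1 := hp₀'.2.1
        have h2 := hq₀'.2.1
        intro h0
        apply h2
        have : det3 a b ((p₀.1 + q₀.1) / 2, (p₀.2 + q₀.2) / 2) =
            (det3 a b p₀ + det3 a b q₀) / 2 := by unfold det3; ring
        rw [this, h1] at h0
        linarith
      · have h1 := hp₀'.2.2
        have h2 := hq₀'.2.2
        intro h0
        apply h1
        have : det3 c d ((p₀.1 + q₀.1) / 2, (p₀.2 + q₀.2) / 2) =
            (det3 c d p₀ + det3 c d q₀) / 2 := by unfold det3; ring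
        rw [this, h2] at h0
        linarith
      · right
        by_cases h : det3 a b x = 0
        · exact Or.inl h
        · exact Or.inr (hne x hx h)
  · exfalso
    push Not at hE
    obtain ⟨e, he, f, hf, hef⟩ := Finset.one_lt_card.1 hE
    obtain ⟨heS, he1, he2⟩ := Finset.mem_filter.1 he
    obtain ⟨hfS, hf1, hf2⟩ := Finset.mem_filter.1 hf
    -- choose two points of P off the line e f
    have hP1 : (P.filter (fun x => det3 e f x = 0)).card ≤ 1 := by
      rw [Finset.card_le_one]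
      intro x hx y hy
      obtain ⟨hx1, hx2⟩ := Finset.mem_filter.1 hx
      obtain ⟨hy1, hy2⟩ := Finset.mem_filter.1 hy
      exact uniq hab he1 (Finset.mem_filter.1 hx1).2.1 (Finset.mem_filter.1 hy1).2.1 hx2 hy2 hef
    have hP2 : 1 < (P.filter (fun x => det3 e f x ≠ 0)).card := by
      have := Finset.card_filter_add_card_filter_not (s := P) (fun x => det3 e f x = 0)
      simp only [ne_eq] at *
      omega
    obtain ⟨p₁, hp₁, p₂, hp₂, hp⟩ := Finset.one_lt_card.1 hP2
    obtain ⟨hp₁P, hp₁e⟩ := Finset.mem_filter.1 hp₁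
    obtain ⟨hp₂P, hp₂e⟩ := Finset.mem_filter.1 hp₂
    obtain ⟨hp₁S, hp₁1, hp₁2⟩ := Finset.mem_filter.1 hp₁P
    obtain ⟨hp₂S, hp₂1, hp₂2⟩ := Finset.mem_filter.1 hp₂P
    have hcut : ∀ u v : ℝ × ℝ, det3 c d u ≠ 0 → u ≠ v →
        (Q.filter (fun x => det3 u v x = 0)).card ≤ 1 := by
      intro u v hu huv
      rw [Finset.card_le_one]
      intro x hx y hy
      obtain ⟨hx1, hx2⟩ := Finset.mem_filter.1 hx
      obtain ⟨hy1, hy2⟩ := Finset.mem_filter.1 hy
      exact uniq hcd hu (Finset.mem_filter.1 hx1).2.2 (Finset.mem_filter.1 hy1).2.2 hx2 hy2 huv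
    have hep₁ : e ≠ p₁ := fun h => he1 (by rw [h]; exact hp₁1)
    have hep₂ : e ≠ p₂ := fun h => he1 (by rw [h]; exact hp₂1)
    have hfp₁ : f ≠ p₁ := fun h => hf1 (by rw [h]; exact hp₁1)
    have hfp₂ : f ≠ p₂ := fun h => hf1 (by rw [h]; exact hp₂1)
    have c1 := hcut e f he2 hef
    have c2 := hcut e p₁ he2 hep₁
    have c3 := hcut e p₂ he2 hep₂
    have c4 := hcut f p₁ hf2 hfp₁
    have c5 := hcut f p₂ hf2 hfp₂
    have hQ2 : 1 < (Q.filter (fun x => det3 e f x ≠ 0 ∧ det3 e p₁ x ≠ 0 ∧ det3 e p₂ x ≠ 0 ∧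
        det3 f p₁ x ≠ 0 ∧ det3 f p₂ x ≠ 0)).card := by
      have hsub : Q ⊆ (Q.filter (fun x => det3 e f x ≠ 0 ∧ det3 e p₁ x ≠ 0 ∧ det3 e p₂ x ≠ 0 ∧
          det3 f p₁ x ≠ 0 ∧ det3 f p₂ x ≠ 0)) ∪ (Q.filter (fun x => det3 e f x = 0) ∪
          (Q.filter (fun x => det3 e p₁ x = 0) ∪ (Q.filter (fun x => det3 e p₂ x = 0) ∪
          (Q.filter (fun x => det3 f p₁ x = 0) ∪ (Q.filter (fun x => det3 f p₂ x = 0)))))) := by
        intro x hx
        simp only [Finset.mem_union, Finset.mem_filter]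
        tauto
      have h1 := Finset.card_le_card hsub
      have u1 := Finset.card_union_le (Q.filter (fun x => det3 e f x ≠ 0 ∧ det3 e p₁ x ≠ 0 ∧
          det3 e p₂ x ≠ 0 ∧ det3 f p₁ x ≠ 0 ∧ det3 f p₂ x ≠ 0))
          (Q.filter (fun x => det3 e f x = 0) ∪
          (Q.filter (fun x => det3 e p₁ x = 0) ∪ (Q.filter (fun x => det3 e p₂ x = 0) ∪
          (Q.filter (fun x => det3 f p₁ x = 0) ∪ (Q.filter (fun x => det3 f p₂ x = 0))))))
      have u2 := Finset.card_union_le (Q.filter (fun x => det3 e f x = 0))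
          (Q.filter (fun x => det3 e p₁ x = 0) ∪ (Q.filter (fun x => det3 e p₂ x = 0) ∪
          (Q.filter (fun x => det3 f p₁ x = 0) ∪ (Q.filter (fun x => det3 f p₂ x = 0)))))
      have u3 := Finset.card_union_le (Q.filter (fun x => det3 e p₁ x = 0))
          (Q.filter (fun x => det3 e p₂ x = 0) ∪
          (Q.filter (fun x => det3 f p₁ x = 0) ∪ (Q.filter (fun x => det3 f p₂ x = 0))))
      have u4 := Finset.card_union_le (Q.filter (fun x => det3 e p₂ x = 0))
          (Q.filter (fun x => det3 f p₁ x = 0) ∪ (Q.filter (fun x => det3 f p₂ x = 0)))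
      have u5 := Finset.card_union_le (Q.filter (fun x => det3 f p₁ x = 0))
          (Q.filter (fun x => det3 f p₂ x = 0))
      omega
    obtain ⟨q₁, hq₁, q₂, hq₂, hq⟩ := Finset.one_lt_card.1 hQ2
    obtain ⟨hq₁Q, g1, g2, g3, g4, g5⟩ := Finset.mem_filter.1 hq₁
    obtain ⟨hq₂Q, g1', g2', g3', g4', g5'⟩ := Finset.mem_filter.1 hq₂
    obtain ⟨hq₁S, hq₁1, hq₁2⟩ := Finset.mem_filter.1 hq₁Q
    obtain ⟨hq₂S, hq₂1, hq₂2⟩ := Finset.mem_filter.1 hq₂Q
    have h6 := gen_of_fin6 ![e, f, p₁, p₂, q₁, q₂]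
      (six a b c d e f p₁ p₂ q₁ q₂ he1 hf1 he2 hf2 hp₁1 hp₂1 hp₁2 hp₂2 hq₁2 hq₂2 hq₁1 hq₂1 hp hq
        hp₁e hp₂e g1 g1' g2 g2' g3 g3' g4 g4' g5 g5')
    have h7 : Finset.univ.image ![e, f, p₁, p₂, q₁, q₂] ⊆ S := by
      intro x hx
      obtain ⟨i, -, rfl⟩ := Finset.mem_image.1 hx
      fin_cases i <;> assumption
    have h8 := hS _ h7 h6.1
    omega

/-- **The class of configurations with no six points in general position is
well-quasi-ordered.** -/
theorem wqo_six (S : ℕ → Finset (ℝ × ℝ)) (hS : ∀ i, ∀ T ⊆ S i, Gen T → T.card < 6) :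
    ∃ i j, i < j ∧ Embeds (S i) (S j) := by
  classical
  have h1 : ({S | TypeA S} ∪ ⋃ k ∈ Finset.range 121, {S | TypeB k S}).PartiallyWellOrderedOn
      Embeds := by
    refine typeA_pwo.union ?_
    rw [Finset.partiallyWellOrderedOn_bUnion]
    intro k _
    exact typeB_pwo k
  rw [Set.partiallyWellOrderedOn_iff_exists_lt] at h1
  exact h1 S (fun i => by
    rcases classify (S i) (hS i) with h | ⟨k, hk, h⟩
    · exact Or.inl h
    · right
      simp only [Set.mem_iUnion]
      exact ⟨k, Finset.mem_range.2 (by omega), h⟩)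

end Pool.Agent.Q235.Wqo
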