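import Pool.Agent.Q235.Wqo.Higman
import Mathlib.Data.Sign.Basic
import Mathlib.Data.Real.Basic
import Mathlib.Data.Finset.Card
import Mathlib.Tactic.Ring
import Mathlib.Tactic.Linarith
import Mathlib.Tactic.FinCases
import Mathlib.Tactic.LinearCombination
import Mathlib.Tactic.FieldSimp
import Mathlib.Tactic.Positivity

/-!
# Orientations in the plane, subconfigurations, and two kinds of configurations

`TypeA S`: `S` lies on two lines together with one point off both lines.
`TypeB k S`: all but exactly `k` points of `S` lie on a line.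
Both classes are well-quasi-ordered by the subconfiguration relation `Embeds`.
-/

namespace Pool.Agent.Q235.Wqo

/-- Twice the signed area of the triangle `p q r`. -/
def det3 (p q r : ℝ × ℝ) : ℝ := (q.1 - p.1) * (r.2 - p.2) - (q.2 - p.2) * (r.1 - p.1)

/-- The orientation of the ordered triple `p q r`. -/
noncomputable def orient (p q r : ℝ × ℝ) : SignType := SignType.sign (det3 p q r)

/-- `T` is a subconfiguration of `S`: some injection of `T` into `S` keeps the orientation of
every ordered triple. -/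
def Embeds (T S : Finset (ℝ × ℝ)) : Prop :=
  ∃ f : ℝ × ℝ → ℝ × ℝ, Set.InjOn f T ∧ (∀ p ∈ T, f p ∈ S) ∧
    ∀ p ∈ T, ∀ q ∈ T, ∀ r ∈ T, orient (f p) (f q) (f r) = orient p q r

theorem orient_eq_zero {p q r : ℝ × ℝ} : orient p q r = 0 ↔ det3 p q r = 0 := by
  unfold orient
  exact sign_eq_zero_iff

theorem det3_swap (p q r : ℝ × ℝ) : det3 q p r = - det3 p q r := by
  unfold det3; ring

theorem det3_rot (p q r : ℝ × ℝ) : det3 q r p = det3 p q r := by
  unfold det3; ring

theorem orient_swap (p q r : ℝ × ℝ) : orient q p r = - orient p q r := by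
  unfold orient; rw [det3_swap, Left.sign_neg]

theorem orient_rot (p q r : ℝ × ℝ) : orient q r p = orient p q r := by
  unfold orient; rw [det3_rot]

theorem det3_self (p q : ℝ × ℝ) : det3 p p q = 0 := by unfold det3; ring

theorem det3_self' (p q : ℝ × ℝ) : det3 p q q = 0 := by unfold det3; ring

theorem det3_self'' (p q : ℝ × ℝ) : det3 p q p = 0 := by unfold det3; ring

/-- Position along the line `a b`. -/
def pos (a b x : ℝ × ℝ) : ℝ := (x.1 - a.1) * (b.1 - a.1) + (x.2 - a.2) * (b.2 - a.2)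

/-- Squared distance. -/
def sq (a b : ℝ × ℝ) : ℝ := (b.1 - a.1) * (b.1 - a.1) + (b.2 - a.2) * (b.2 - a.2)

theorem sq_pos {a b : ℝ × ℝ} (h : a ≠ b) : 0 < sq a b := by
  unfold sq
  rcases lt_or_eq_of_le (add_nonneg (mul_self_nonneg (b.1 - a.1)) (mul_self_nonneg (b.2 - a.2)))
    with h1 | h1
  · exact h1
  · exfalso
    have h2 : (b.1 - a.1) * (b.1 - a.1) = 0 := by
      nlinarith [mul_self_nonneg (b.1 - a.1), mul_self_nonneg (b.2 - a.2)]
    have h3 : (b.2 - a.2) * (b.2 - a.2) = 0 := by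
      nlinarith [mul_self_nonneg (b.1 - a.1), mul_self_nonneg (b.2 - a.2)]
    have h4 := mul_self_eq_zero.1 h2
    have h5 := mul_self_eq_zero.1 h3
    exact h (Prod.ext (by linarith) (by linarith))

theorem line_det (a b x y z : ℝ × ℝ) (hx : det3 a b x = 0) (hy : det3 a b y = 0) :
    det3 x y z * sq a b = (pos a b y - pos a b x) * det3 a b z := by
  unfold det3 sq pos at *
  linear_combination ((z.1 - x.1) * (b.1 - a.1) + (z.2 - x.2) * (b.2 - a.2)) * (hx - hy) +
    (- ((y.1 - x.1) * (b.1 - a.1) + (y.2 - x.2) * (b.2 - a.2))) * hx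

theorem line_det_e (a b x y z e : ℝ × ℝ) (hx : det3 a b x = 0) (hy : det3 a b y = 0)
    (hab : a ≠ b) : det3 x y z * det3 a b e = det3 e x y * det3 a b z := by
  have h1 := line_det a b x y z hx hy
  have h2 := line_det a b x y e hx hy
  have h3 : det3 x y e = det3 e x y := det3_rot e x y
  rw [h3] at h2
  have h4 := sq_pos hab
  have h5 : (det3 x y z * det3 a b e - det3 e x y * det3 a b z) * sq a b = 0 := by
    linear_combination (det3 a b e) * h1 - (det3 a b z) * h2
  rcases mul_eq_zero.1 h5 with h6 | h6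
  · linarith
  · exact absurd h6 h4.ne'

/-- Two points of a line with the same position coincide. -/
theorem eq_of_pos (a b x y : ℝ × ℝ) (hx : det3 a b x = 0) (hy : det3 a b y = 0)
    (hab : a ≠ b) (h : pos a b x = pos a b y) : x = y := by
  have h4 := sq_pos hab
  have h1 := line_det a b x y (x.1 + 1, x.2) hx hy
  have h2 := line_det a b x y (x.1, x.2 + 1) hx hy
  rw [h, sub_self, zero_mul] at h1 h2
  have h3 : det3 x y (x.1 + 1, x.2) = 0 := by
    rcases mul_eq_zero.1 h1 with h6 | h6
    · exact h6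
    · exact absurd h6 h4.ne'
  have h5 : det3 x y (x.1, x.2 + 1) = 0 := by
    rcases mul_eq_zero.1 h2 with h6 | h6
    · exact h6
    · exact absurd h6 h4.ne'
  unfold det3 at h3 h5
  simp only at h3 h5
  exact Prod.ext (by linarith) (by linarith)

/-- A line through `u ∉ line c d` meets `line c d` at most once. -/
theorem uniq {c d u v x y : ℝ × ℝ} (hcd : c ≠ d) (hu : det3 c d u ≠ 0) (hx : det3 c d x = 0)
    (hy : det3 c d y = 0) (h1 : det3 u v x = 0) (h2 : det3 u v y = 0) (huv : u ≠ v) : x = y := by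
  have e1 := line_det c d x y u hx hy
  have e2 := line_det u v x y u h1 h2
  rw [det3_self'', mul_zero] at e2
  have e3 : det3 x y u = 0 := by
    rcases mul_eq_zero.1 e2 with h6 | h6
    · exact h6
    · exact absurd h6 (sq_pos huv).ne'
  rw [e3, zero_mul] at e1
  rcases mul_eq_zero.1 e1.symm with h6 | h6
  · exact eq_of_pos c d x y hx hy hcd (by linarith)
  · exact absurd h6 hu

/-- `f` keeps the orientation of the triple. -/
def Keeps (f : ℝ × ℝ → ℝ × ℝ) (p q r : ℝ × ℝ) : Prop := orient (f p) (f q) (f r) = orient p q r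

theorem Keeps.swap {f : ℝ × ℝ → ℝ × ℝ} {p q r : ℝ × ℝ} (h : Keeps f p q r) : Keeps f q p r := by
  unfold Keeps at *
  rw [orient_swap, orient_swap p q r, h]

theorem Keeps.rot {f : ℝ × ℝ → ℝ × ℝ} {p q r : ℝ × ℝ} (h : Keeps f p q r) : Keeps f q r p := by
  unfold Keeps at *
  rw [orient_rot, orient_rot p q r, h]

/-- `S` lies on two lines together with at most one point off both lines. -/
def TypeA (S : Finset (ℝ × ℝ)) : Prop :=
  ∃ a b c d e : ℝ × ℝ, det3 a b e ≠ 0 ∧ det3 c d e ≠ 0 ∧
    ∀ x ∈ S, x = e ∨ det3 a b x = 0 ∨ det3 c d x = 0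

/-- All but `k` points of `S` lie on a line. -/
def TypeB (k : ℕ) (S : Finset (ℝ × ℝ)) : Prop :=
  ∃ a b : ℝ × ℝ, a ≠ b ∧ (S.filter (fun x => det3 a b x ≠ 0)).card = k

theorem sign_sub_eq {x y x' y' : ℝ} (h1 : x < y → x' < y') (h2 : y < x → y' < x')
    (h3 : x = y → x' = y') : SignType.sign (x' - y') = SignType.sign (x - y) := by
  rcases lt_trichotomy x y with h | h | h
  · rw [sign_neg (sub_neg.2 h), sign_neg (sub_neg.2 (h1 h))]
  · rw [h3 h, h, sub_self, sub_self]
  · rw [sign_pos (sub_pos.2 h), sign_pos (sub_pos.2 (h2 h))]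

theorem typeB_pwo (k : ℕ) : {S | TypeB k S}.PartiallyWellOrderedOn Embeds := by
  classical
  rw [Set.partiallyWellOrderedOn_iff_exists_lt]
  intro S hS
  choose a b hab hcard using hS
  -- enumerate the exceptional points
  have hen : ∀ i, ∃ e : Fin k → ℝ × ℝ, Function.Injective e ∧
      ∀ x, x ∈ (S i).filter (fun x => det3 (a i) (b i) x ≠ 0) ↔ ∃ s, e s = x := by
    intro i
    let E := (Finset.equivFinOfCardEq (hcard i)).symm
    refine ⟨fun s => (E s : ℝ × ℝ), fun s t h => E.injective (Subtype.ext h), fun x => ?_⟩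
    constructor
    · intro hx
      exact ⟨E.symm ⟨x, hx⟩, by simp⟩
    · rintro ⟨s, rfl⟩
      exact (E s).2
  choose e heinj hemem using hen
  let γ : ℕ → (Fin k → Fin k → Fin k → SignType) × (Fin k → SignType) := fun i =>
    (fun s t u => orient (e i s) (e i t) (e i u), fun s => orient (a i) (b i) (e i s))
  let lab : ℕ → ℝ × ℝ → (Fin k → Fin k → SignType) := fun i x s t => orient (e i s) (e i t) x
  let P : ℕ → Finset ((Fin k → Fin k → SignType) × ℝ) := fun i =>
    ((S i).filter (fun x => det3 (a i) (b i) x = 0)).image (fun x => (lab i x, pos (a i) (b i) x))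
  obtain ⟨i, j, hij, hγ, g, hg1, hg2⟩ := exists_embed γ P
  refine ⟨i, j, hij, ?_⟩
  have hP : ∀ i x, x ∈ S i → det3 (a i) (b i) x = 0 → (lab i x, pos (a i) (b i) x) ∈ P i := by
    intro i x hx h0
    exact Finset.mem_image.2 ⟨x, Finset.mem_filter.2 ⟨hx, h0⟩, rfl⟩
  -- images of points on the line
  have hon : ∀ x, x ∈ S i → det3 (a i) (b i) x = 0 → ∃ y, y ∈ S j ∧ det3 (a j) (b j) y = 0 ∧
      lab j y = lab i x ∧ pos (a j) (b j) y = g (pos (a i) (b i) x) := by
    intro x hx h0
    obtain ⟨y, hy, hy2⟩ := Finset.mem_image.1 (hg2 _ (hP i x hx h0))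
    obtain ⟨hy3, hy4⟩ := Finset.mem_filter.1 hy
    exact ⟨y, hy3, hy4, (Prod.mk.inj hy2).1, (Prod.mk.inj hy2).2⟩
  have hoff : ∀ x, x ∈ S i → det3 (a i) (b i) x ≠ 0 → ∃ s, e i s = x := fun x hx h0 =>
    (hemem i x).1 (Finset.mem_filter.2 ⟨hx, h0⟩)
  have heS : ∀ i s, e i s ∈ S i ∧ det3 (a i) (b i) (e i s) ≠ 0 := fun i s =>
    Finset.mem_filter.1 ((hemem i _).2 ⟨s, rfl⟩)
  -- the map
  let f : ℝ × ℝ → ℝ × ℝ := fun x =>
    if h : x ∈ S i ∧ det3 (a i) (b i) x = 0 then (hon x h.1 h.2).choose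
    else if h' : ∃ s, e i s = x then e j h'.choose else x
  have hf1 : ∀ x, x ∈ S i → det3 (a i) (b i) x = 0 → f x ∈ S j ∧ det3 (a j) (b j) (f x) = 0 ∧
      lab j (f x) = lab i x ∧ pos (a j) (b j) (f x) = g (pos (a i) (b i) x) := by
    intro x hx h0
    have : f x = (hon x hx h0).choose := by
      simp only [f]
      rw [dif_pos ⟨hx, h0⟩]
    rw [this]
    exact (hon x hx h0).choose_spec
  have hf2 : ∀ s, f (e i s) = e j s := by
    intro s
    have h1 : ∃ t, e i t = e i s := ⟨s, rfl⟩
    have : f (e i s) = e j h1.choose := by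
      simp only [f]
      rw [dif_neg (fun h => (heS i s).2 h.2), dif_pos h1]
    rw [this, heinj i h1.choose_spec]
  have hγ1 : ∀ s t u, orient (e i s) (e i t) (e i u) = orient (e j s) (e j t) (e j u) := by
    intro s t u
    have := congrArg Prod.fst hγ
    exact congrFun (congrFun (congrFun this s) t) u
  have hγ2 : ∀ s, orient (a i) (b i) (e i s) = orient (a j) (b j) (e j s) := by
    intro s
    exact congrFun (congrArg Prod.snd hγ) s
  -- sides are kept
  have hside : ∀ z ∈ S i, orient (a j) (b j) (f z) = orient (a i) (b i) z := by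
    intro z hz
    by_cases h0 : det3 (a i) (b i) z = 0
    · rw [orient_eq_zero.2 h0, orient_eq_zero.2 (hf1 z hz h0).2.1]
    · obtain ⟨s, rfl⟩ := hoff z hz h0
      rw [hf2, hγ2]
  have hpos : ∀ x, x ∈ S i → det3 (a i) (b i) x = 0 → ∀ y, y ∈ S i → det3 (a i) (b i) y = 0 →
      SignType.sign (pos (a j) (b j) (f y) - pos (a j) (b j) (f x)) =
      SignType.sign (pos (a i) (b i) y - pos (a i) (b i) x) := by
    intro x hx hx0 y hy hy0
    rw [(hf1 x hx hx0).2.2.2, (hf1 y hy hy0).2.2.2]
    apply sign_sub_eq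
    · intro h
      exact hg1 _ (hP i y hy hy0) _ (hP i x hx hx0) h
    · intro h
      exact hg1 _ (hP i x hx hx0) _ (hP i y hy hy0) h
    · intro h
      rw [h]
  have hsgn : ∀ i, ∀ x y z : ℝ × ℝ, det3 (a i) (b i) x = 0 → det3 (a i) (b i) y = 0 →
      orient x y z = SignType.sign (pos (a i) (b i) y - pos (a i) (b i) x) *
        orient (a i) (b i) z := by
    intro i x y z hx hy
    have h1 := congrArg SignType.sign (line_det (a i) (b i) x y z hx hy)
    rw [sign_mul, sign_mul, sign_pos (sq_pos (hab i)), mul_one] at h1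
    exact h1
  have hLL : ∀ x, x ∈ S i → det3 (a i) (b i) x = 0 → ∀ y, y ∈ S i → det3 (a i) (b i) y = 0 →
      ∀ z ∈ S i, Keeps f x y z := by
    intro x hx hx0 y hy hy0 z hz
    unfold Keeps
    rw [hsgn i x y z hx0 hy0, hsgn j _ _ _ (hf1 x hx hx0).2.1 (hf1 y hy hy0).2.1,
      hpos x hx hx0 y hy hy0, hside z hz]
  have hEE : ∀ s t, ∀ z ∈ S i, Keeps f (e i s) (e i t) z := by
    intro s t z hz
    unfold Keeps
    by_cases h0 : det3 (a i) (b i) z = 0
    · rw [hf2, hf2]
      exact congrFun (congrFun (hf1 z hz h0).2.2.1 s) t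
    · obtain ⟨u, rfl⟩ := hoff z hz h0
      rw [hf2, hf2, hf2, hγ1]
  refine ⟨f, ?_, ?_, ?_⟩
  · intro x hx y hy hxy
    have hx' : x ∈ S i := hx
    have hy' : y ∈ S i := hy
    have hs : orient (a i) (b i) x = orient (a i) (b i) y := by
      rw [← hside x hx', ← hside y hy', hxy]
    by_cases h0 : det3 (a i) (b i) x = 0
    · have h1 : det3 (a i) (b i) y = 0 := by
        rw [← orient_eq_zero, ← hs, orient_eq_zero]; exact h0
      have h2 := hpos x hx' h0 y hy' h1
      rw [hxy, sub_self, sign_zero] at h2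
      have h3 := sign_eq_zero_iff.1 h2.symm
      exact eq_of_pos (a i) (b i) x y h0 h1 (hab i) (by linarith)
    · have h1 : det3 (a i) (b i) y ≠ 0 := by
        intro h
        apply h0
        rw [← orient_eq_zero, hs, orient_eq_zero]; exact h
      obtain ⟨s, rfl⟩ := hoff x hx' h0
      obtain ⟨t, rfl⟩ := hoff y hy' h1
      rw [hf2, hf2] at hxy
      rw [heinj j hxy]
  · intro x hx
    by_cases h0 : det3 (a i) (b i) x = 0
    · exact (hf1 x hx h0).1
    · obtain ⟨s, rfl⟩ := hoff x hx h0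
      rw [hf2]
      exact (heS j s).1
  · intro x hx y hy z hz
    change Keeps f x y z
    by_cases hx0 : det3 (a i) (b i) x = 0
    · by_cases hy0 : det3 (a i) (b i) y = 0
      · exact hLL x hx hx0 y hy hy0 z hz
      · by_cases hz0 : det3 (a i) (b i) z = 0
        · exact (hLL z hz hz0 x hx hx0 y hy).rot
        · obtain ⟨s, rfl⟩ := hoff y hy hy0
          obtain ⟨t, rfl⟩ := hoff z hz hz0
          exact (hEE s t x hx).rot.rot
    · obtain ⟨s, rfl⟩ := hoff x hx hx0
      by_cases hy0 : det3 (a i) (b i) y = 0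
      · by_cases hz0 : det3 (a i) (b i) z = 0
        · exact (hLL y hy hy0 z hz hz0 _ hx).rot.rot
        · obtain ⟨t, rfl⟩ := hoff z hz hz0
          exact (hEE t s y hy).rot
      · obtain ⟨t, rfl⟩ := hoff y hy hy0
        exact hEE s t z hz

end Pool.Agent.Q235.Wqo
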