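import Mathlib.Order.WellFoundedSet
import Mathlib.Data.Real.Basic
import Mathlib.Data.Finset.Sort
import Mathlib.Data.Fintype.Powerset

/-!
# A labelled form of the subword lemma

`exists_embed`: for a sequence of finite sets of (label, real value) pairs with finitely many
labels, together with a colour from a finite set, two members `i < j` have the same colour and the
first embeds in the second by a map which keeps the labels and is strictly increasing on values.
-/

namespace Pool.Agent.Q235.Wqo

open List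

/-- Two strictly sorted lists with the same image words are matched by a monotone map. -/
theorem exists_map_of_map_eq {A : Type} (f f' : ℝ → A) (l l' : List ℝ)
    (hl : l.Pairwise (· < ·)) (hl' : l'.Pairwise (· < ·)) (h : l.map f = l'.map f') :
    ∃ g : ℝ → ℝ, (∀ v ∈ l, ∀ w ∈ l, v < w → g v < g w) ∧ ∀ v ∈ l, g v ∈ l' ∧ f v = f' (g v) := by
  classical
  have hlen : l.length = l'.length := by
    simpa using congrArg List.length h
  refine ⟨fun v => l'.getD (l.idxOf v) 0, ?_, ?_⟩
  · intro v hv w hw hvw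
    have hiv : l.idxOf v < l.length := List.idxOf_lt_length_iff.2 hv
    have hiw : l.idxOf w < l.length := List.idxOf_lt_length_iff.2 hw
    have hlt : l.idxOf v < l.idxOf w := by
      by_contra hcon
      rcases lt_or_eq_of_le (not_lt.1 hcon) with h1 | h1
      · have := List.pairwise_iff_getElem.1 hl _ _ hiw hiv h1
        rw [List.getElem_idxOf, List.getElem_idxOf] at this
        exact absurd this (not_lt.2 hvw.le)
      · have h2 : l[l.idxOf w]'hiw = l[l.idxOf v]'hiv := by
          congr 1
        rw [List.getElem_idxOf, List.getElem_idxOf] at h2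
        exact absurd hvw (by rw [h2]; exact lt_irrefl _)
    have h1 : l.idxOf v < l'.length := hlen ▸ hiv
    have h2 : l.idxOf w < l'.length := hlen ▸ hiw
    have := List.pairwise_iff_getElem.1 hl' _ _ h1 h2 hlt
    simpa [h1, h2] using this
  · intro v hv
    have hiv : l.idxOf v < l.length := List.idxOf_lt_length_iff.2 hv
    have h1 : l.idxOf v < l'.length := hlen ▸ hiv
    have e : l'.getD (l.idxOf v) 0 = l'[l.idxOf v]'h1 := by simp [h1]
    refine ⟨?_, ?_⟩
    · simp only [e]
      exact List.getElem_mem h1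
    · simp only [e]
      have h3 : (l.map f)[l.idxOf v]'(by simpa using hiv) =
          (l'.map f')[l.idxOf v]'(by simpa using h1) := by
        simp only [h]
      rw [List.getElem_map, List.getElem_map, List.getElem_idxOf] at h3
      exact h3

/-- The labelled subword lemma. -/
theorem exists_embed {Γ Λ : Type} [Finite Γ] [Finite Λ] (γ : ℕ → Γ) (P : ℕ → Finset (Λ × ℝ)) :
    ∃ i j, i < j ∧ γ i = γ j ∧ ∃ g : ℝ → ℝ,
      (∀ p ∈ P i, ∀ q ∈ P i, p.2 < q.2 → g p.2 < g q.2) ∧ ∀ p ∈ P i, (p.1, g p.2) ∈ P j := by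
  classical
  let L : ℕ → List ℝ := fun i => ((P i).image Prod.snd).sort (· ≤ ·)
  let F : ℕ → ℝ → Set Λ := fun i v => {a | (a, v) ∈ P i}
  have hL : ∀ i v, v ∈ L i ↔ ∃ p ∈ P i, p.2 = v := by
    intro i v
    simp [L]
  have hLs : ∀ i, (L i).Pairwise (· < ·) := fun i => Finset.sortedLT_sort _ |>.pairwise
  have hΓ : WellQuasiOrdered (fun a b : Γ => a = b) := Finite.wellQuasiOrdered _
  have hΛ : WellQuasiOrdered (fun a b : Set Λ => a = b) := Finite.wellQuasiOrdered _
  have hW : WellQuasiOrdered (List.SublistForall₂ (fun a b : Set Λ => a = b)) := by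
    have h1 := Set.PartiallyWellOrderedOn.partiallyWellOrderedOn_sublistForall₂
      (fun a b : Set Λ => a = b) (Set.partiallyWellOrderedOn_univ_iff.2 hΛ)
    rw [← Set.partiallyWellOrderedOn_univ_iff]
    exact h1.mono (fun x _ => by simp)
  obtain ⟨i, j, hij, h1, h2⟩ := (hΓ.prod hW) (fun i => (γ i, (L i).map (F i)))
  refine ⟨i, j, hij, h1, ?_⟩
  simp only at h2
  obtain ⟨m, hm1, hm2⟩ := List.sublistForall₂_iff.1 h2
  have hm : (L i).map (F i) = m := by
    rw [List.forall₂_eq_eq_eq] at hm1
    exact hm1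
  rw [← hm] at hm2
  obtain ⟨l'', hl'', hl2⟩ := List.sublist_map_iff.1 hm2
  obtain ⟨g, hg1, hg2⟩ := exists_map_of_map_eq (F i) (F j) (L i) l'' (hLs i)
    ((hLs j).sublist hl'') hl2
  refine ⟨g, ?_, ?_⟩
  · intro p hp q hq hpq
    exact hg1 _ ((hL i _).2 ⟨p, hp, rfl⟩) _ ((hL i _).2 ⟨q, hq, rfl⟩) hpq
  · intro p hp
    have h3 := (hg2 p.2 ((hL i _).2 ⟨p, hp, rfl⟩)).2
    have h4 : p.1 ∈ F i p.2 := by
      simpa [F] using hp
    rw [h3] at h4
    simpa [F] using h4

end Pool.Agent.Q235.Wqo
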