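import Pool.Agent.Q235.Wqo.Geom
import Mathlib.Data.Set.Finite.Basic
import Mathlib.Data.Fintype.Prod
import Mathlib.Algebra.CharZero.Infinite

/-!
# Configurations on two lines and one further point are well-quasi-ordered
-/

namespace Pool.Agent.Q235.Wqo

theorem typeA_pwo : {S | TypeA S}.PartiallyWellOrderedOn Embeds := by
  classical
  rw [Set.partiallyWellOrderedOn_iff_exists_lt]
  intro S hS
  choose a b c d e habe hcde hcov using hS
  have hab : ∀ i, a i ≠ b i := by
    intro i h
    apply habe i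
    rw [h, det3_self]
  have hcd : ∀ i, c i ≠ d i := by
    intro i h
    apply hcde i
    rw [h, det3_self]
  -- a direction through `e` missing all other points
  have hk : ∀ i, ∃ k : ℝ, ∀ x ∈ S i, x ≠ e i → (x.2 - (e i).2) - k * (x.1 - (e i).1) ≠ 0 := by
    intro i
    obtain ⟨k, hk⟩ := Infinite.exists_notMem_finset
      ((S i).image (fun x => (x.2 - (e i).2) / (x.1 - (e i).1)))
    refine ⟨k, fun x hx hxe h0 => ?_⟩
    by_cases h1 : x.1 - (e i).1 = 0
    · rw [h1, mul_zero, sub_zero] at h0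
      exact hxe (Prod.ext (by linarith) (by linarith))
    · apply hk
      refine Finset.mem_image.2 ⟨x, hx, ?_⟩
      rw [div_eq_iff h1]
      linarith
  choose k hk using hk
  let Y : ℕ → ℝ × ℝ → ℝ := fun i x => (x.2 - (e i).2) - k i * (x.1 - (e i).1)
  let m : ℕ → ℝ × ℝ → ℝ := fun i x => (x.1 - (e i).1) / Y i x
  have hY : ∀ i, ∀ x ∈ S i, x ≠ e i → Y i x ≠ 0 := hk
  have hD : ∀ i x y, Y i x ≠ 0 → Y i y ≠ 0 →
      det3 (e i) x y = Y i x * Y i y * (m i x - m i y) := by
    intro i x y hx hy
    have h1 : m i x * Y i x = x.1 - (e i).1 := div_mul_cancel₀ _ hx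
    have h2 : m i y * Y i y = y.1 - (e i).1 := div_mul_cancel₀ _ hy
    have h3 : det3 (e i) x y = (x.1 - (e i).1) * Y i y - Y i x * (y.1 - (e i).1) := by
      simp only [det3, Y]
      ring
    rw [h3, ← h1, ← h2]
    ring
  let γ : ℕ → SignType × SignType × Bool := fun i =>
    (orient (a i) (b i) (e i), orient (c i) (d i) (e i), decide (e i ∈ S i))
  let lab : ℕ → ℝ × ℝ → SignType × SignType × SignType := fun i x =>
    (orient (a i) (b i) x, orient (c i) (d i) x, SignType.sign (Y i x))
  let P : ℕ → Finset ((SignType × SignType × SignType) × ℝ) := fun i =>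
    ((S i).erase (e i)).image (fun x => (lab i x, m i x))
  obtain ⟨i, j, hij, hγ, g, hg1, hg2⟩ := exists_embed γ P
  refine ⟨i, j, hij, ?_⟩
  have hP : ∀ i x, x ∈ S i → x ≠ e i → (lab i x, m i x) ∈ P i := by
    intro i x hx h0
    exact Finset.mem_image.2 ⟨x, Finset.mem_erase.2 ⟨h0, hx⟩, rfl⟩
  have hon : ∀ x, x ∈ S i → x ≠ e i → ∃ y, y ∈ S j ∧ y ≠ e j ∧
      lab j y = lab i x ∧ m j y = g (m i x) := by
    intro x hx h0
    obtain ⟨y, hy, hy2⟩ := Finset.mem_image.1 (hg2 _ (hP i x hx h0))
    obtain ⟨hy3, hy4⟩ := Finset.mem_erase.1 hy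
    exact ⟨y, hy4, hy3, (Prod.mk.inj hy2).1, (Prod.mk.inj hy2).2⟩
  let f : ℝ × ℝ → ℝ × ℝ := fun x =>
    if h : x ∈ S i ∧ x ≠ e i then (hon x h.1 h.2).choose else e j
  have hf1 : ∀ x, x ∈ S i → x ≠ e i → f x ∈ S j ∧ f x ≠ e j ∧
      lab j (f x) = lab i x ∧ m j (f x) = g (m i x) := by
    intro x hx h0
    have : f x = (hon x hx h0).choose := by
      simp only [f]
      rw [dif_pos ⟨hx, h0⟩]
    rw [this]
    exact (hon x hx h0).choose_spec
  have hf2 : f (e i) = e j := by
    simp only [f]
    rw [dif_neg (fun h => h.2 rfl)]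
  have hγ1 : orient (a i) (b i) (e i) = orient (a j) (b j) (e j) := congrArg Prod.fst hγ
  have hγ2 : orient (c i) (d i) (e i) = orient (c j) (d j) (e j) :=
    congrArg (fun t => t.2.1) hγ
  have hγ3 : decide (e i ∈ S i) = decide (e j ∈ S j) := congrArg (fun t => t.2.2) hγ
  have hs1 : ∀ z ∈ S i, orient (a j) (b j) (f z) = orient (a i) (b i) z := by
    intro z hz
    by_cases h0 : z = e i
    · rw [h0, hf2, hγ1]
    · exact congrArg Prod.fst (hf1 z hz h0).2.2.1
  have hs2 : ∀ z ∈ S i, orient (c j) (d j) (f z) = orient (c i) (d i) z := by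
    intro z hz
    by_cases h0 : z = e i
    · rw [h0, hf2, hγ2]
    · exact congrArg (fun t => t.2.1) (hf1 z hz h0).2.2.1
  -- orientations with apex e
  have hE : ∀ x ∈ S i, ∀ y ∈ S i, orient (e j) (f x) (f y) = orient (e i) x y := by
    intro x hx y hy
    by_cases hxe : x = e i
    · rw [hxe, hf2, orient_eq_zero.2 (det3_self _ _), orient_eq_zero.2 (det3_self _ _)]
    by_cases hye : y = e i
    · rw [hye, hf2, orient_eq_zero.2 (det3_self'' _ _), orient_eq_zero.2 (det3_self'' _ _)]
    obtain ⟨hx1, hx2, hx3, hx4⟩ := hf1 x hx hxe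
    obtain ⟨hy1, hy2, hy3, hy4⟩ := hf1 y hy hye
    have hx5 : SignType.sign (Y j (f x)) = SignType.sign (Y i x) :=
      congrArg (fun t => t.2.2) hx3
    have hy5 : SignType.sign (Y j (f y)) = SignType.sign (Y i y) :=
      congrArg (fun t => t.2.2) hy3
    unfold orient
    rw [hD i x y (hY i x hx hxe) (hY i y hy hye),
      hD j (f x) (f y) (hY j _ hx1 hx2) (hY j _ hy1 hy2)]
    rw [sign_mul, sign_mul, sign_mul, sign_mul, hx5, hy5, hx4, hy4]
    congr 1
    apply sign_sub_eq
    · intro h
      exact hg1 _ (hP i x hx hxe) _ (hP i y hy hye) h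
    · intro h
      exact hg1 _ (hP i y hy hye) _ (hP i x hx hxe) h
    · intro h
      rw [h]
  -- two points on the same line
  have hsq : ∀ s : SignType, s ≠ 0 → s * s = 1 := by decide
  have hform : ∀ (p q x y z o : ℝ × ℝ), det3 p q o ≠ 0 → det3 p q x = 0 → det3 p q y = 0 →
      orient x y z = orient o x y * orient p q z * orient p q o := by
    intro p q x y z o ho hx hy
    have hpq : p ≠ q := by
      intro h
      apply ho
      rw [h, det3_self]
    have h1 := congrArg SignType.sign (line_det_e p q x y z o hx hy hpq)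
    rw [sign_mul, sign_mul] at h1
    have h2 := hsq (SignType.sign (det3 p q o)) (by rw [Ne, sign_eq_zero_iff]; exact ho)
    unfold orient
    rw [← h1, mul_assoc, h2, mul_one]
  have hL1 : ∀ x, x ∈ S i → det3 (a i) (b i) x = 0 → ∀ y, y ∈ S i → det3 (a i) (b i) y = 0 →
      ∀ z ∈ S i, Keeps f x y z := by
    intro x hx hx0 y hy hy0 z hz
    unfold Keeps
    have hx1 : det3 (a j) (b j) (f x) = 0 := by
      rw [← orient_eq_zero, hs1 x hx, orient_eq_zero]; exact hx0
    have hy1 : det3 (a j) (b j) (f y) = 0 := by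
      rw [← orient_eq_zero, hs1 y hy, orient_eq_zero]; exact hy0
    rw [hform (a i) (b i) x y z (e i) (habe i) hx0 hy0,
      hform (a j) (b j) (f x) (f y) (f z) (e j) (habe j) hx1 hy1, hE x hx y hy, hs1 z hz, hγ1]
  have hL2 : ∀ x, x ∈ S i → det3 (c i) (d i) x = 0 → ∀ y, y ∈ S i → det3 (c i) (d i) y = 0 →
      ∀ z ∈ S i, Keeps f x y z := by
    intro x hx hx0 y hy hy0 z hz
    unfold Keeps
    have hx1 : det3 (c j) (d j) (f x) = 0 := by
      rw [← orient_eq_zero, hs2 x hx, orient_eq_zero]; exact hx0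
    have hy1 : det3 (c j) (d j) (f y) = 0 := by
      rw [← orient_eq_zero, hs2 y hy, orient_eq_zero]; exact hy0
    rw [hform (c i) (d i) x y z (e i) (hcde i) hx0 hy0,
      hform (c j) (d j) (f x) (f y) (f z) (e j) (hcde j) hx1 hy1, hE x hx y hy, hs2 z hz, hγ2]
  have hKe : ∀ y ∈ S i, ∀ z ∈ S i, Keeps f (e i) y z := by
    intro y hy z hz
    unfold Keeps
    rw [hf2]
    exact hE y hy z hz
  refine ⟨f, ?_, ?_, ?_⟩
  · intro x hx y hy hxy
    have hx' : x ∈ S i := hx
    have hy' : y ∈ S i := hy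
    by_cases hxe : x = e i
    · by_cases hye : y = e i
      · rw [hxe, hye]
      · exfalso
        apply (hf1 y hy' hye).2.1
        rw [← hxy, hxe, hf2]
    by_cases hye : y = e i
    · exfalso
      apply (hf1 x hx' hxe).2.1
      rw [hxy, hye, hf2]
    have h1 : orient (a i) (b i) x = orient (a i) (b i) y := by
      rw [← hs1 x hx', ← hs1 y hy', hxy]
    have h2 : orient (c i) (d i) x = orient (c i) (d i) y := by
      rw [← hs2 x hx', ← hs2 y hy', hxy]
    have h3 : det3 (e i) x y = 0 := by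
      rw [← orient_eq_zero, ← hE x hx' y hy', hxy, orient_eq_zero, det3_self']
    rcases hcov i x hx' with h | h | h
    · exact absurd h hxe
    · have h4 : det3 (a i) (b i) y = 0 := by
        rw [← orient_eq_zero, ← h1, orient_eq_zero]; exact h
      exact uniq (hab i) (habe i) h h4 (det3_self' _ _) h3 (Ne.symm hxe)
    · have h4 : det3 (c i) (d i) y = 0 := by
        rw [← orient_eq_zero, ← h2, orient_eq_zero]; exact h
      exact uniq (hcd i) (hcde i) h h4 (det3_self' _ _) h3 (Ne.symm hxe)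
  · intro x hx
    by_cases hxe : x = e i
    · rw [hxe, hf2]
      have : decide (e i ∈ S i) = true := by
        rw [← hxe]; exact decide_eq_true hx
      rw [hγ3] at this
      exact of_decide_eq_true this
    · exact (hf1 x hx hxe).1
  · intro x hx y hy z hz
    change Keeps f x y z
    by_cases hxe : x = e i
    · rw [hxe]
      exact hKe y hy z hz
    by_cases hye : y = e i
    · rw [hye]
      exact (hKe z hz x hx).rot.rot
    by_cases hze : z = e i
    · rw [hze]
      exact (hKe x hx y hy).rot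
    rcases (hcov i x hx).resolve_left hxe with h1 | h1
    · rcases (hcov i y hy).resolve_left hye with h2 | h2
      · exact hL1 x hx h1 y hy h2 z hz
      · rcases (hcov i z hz).resolve_left hze with h3 | h3
        · exact (hL1 z hz h3 x hx h1 y hy).rot
        · exact (hL2 y hy h2 z hz h3 x hx).rot.rot
    · rcases (hcov i y hy).resolve_left hye with h2 | h2
      · rcases (hcov i z hz).resolve_left hze with h3 | h3
        · exact (hL1 y hy h2 z hz h3 x hx).rot.rot
        · exact (hL2 z hz h3 x hx h1 y hy).rot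
      · exact hL2 x hx h1 y hy h2 z hz

end Pool.Agent.Q235.Wqo
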